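import Pool.Agent.Helper88.PP.Defs2

set_option autoImplicit false

/-!
MP_120218_co, project PP: sets whose elements have on average few distinct prime factors.
-/

open Finset

namespace Pool.Agent.Helper57.PP

open Pool.Agent.Helper88.PP Pool.Agent.Helper26.TR

/-- Q1 for the sets `A` whose elements have on average at most `log|A| / C` distinct prime
factors. -/
def OmegaQ1 : Prop :=
  ∀ (k : ℕ) (ε : ℝ), 0 < ε → ∃ C : ℝ, 1 ≤ C ∧
    ∀ A : Finset ℤ, (0 : ℤ) ∉ A → 3 ≤ A.card →
      C * ∑ a ∈ A, (a.natAbs.primeFactors.card : ℝ) ≤ A.card * Real.log A.card →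
      (A.card : ℝ) ^ ((k : ℝ) - ε) ≤
        C * (max (sumSet k A).card (prodSet k A).card : ℕ)

/-- double counting of the pairs of an element and a prime factor -/
theorem sum_count_le (A : Finset ℤ) (P : Finset ℕ) (h0 : (0 : ℤ) ∉ A) (hP : ∀ p ∈ P, p.Prime) :
    ∑ p ∈ P, (A.filter (fun a => ((p : ℤ) ∣ a))).card ≤
      ∑ a ∈ A, a.natAbs.primeFactors.card := by
  classical
  have h1 : ∀ p ∈ P, (A.filter (fun a => ((p : ℤ) ∣ a))).card =
      ∑ a ∈ A, if ((p : ℤ) ∣ a) then 1 else 0 := by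
    intro p _
    rw [card_filter]
  rw [sum_congr rfl h1, sum_comm]
  apply sum_le_sum
  intro a ha
  rw [← card_filter]
  apply card_le_card
  intro p hp
  rw [mem_filter] at hp
  have ha0 : a.natAbs ≠ 0 := by
    rw [Int.natAbs_ne_zero]
    rintro rfl
    exact h0 ha
  exact Nat.mem_primeFactors.2 ⟨hP p hp.1, Int.natCast_dvd.1 hp.2, ha0⟩

/-- **Few distinct prime factors on average.** -/
theorem omegaQ1 (h : PopQ1) : OmegaQ1 := by
  classical
  intro k ε hε
  obtain ⟨C, hC, H⟩ := h k ε hε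
  have hC0 : 0 < C := by linarith
  have hCC : C ≤ C ^ 2 := by nlinarith
  refine ⟨C ^ 2, by nlinarith, ?_⟩
  intro A h0 h3 hω
  have hA3 : (3 : ℝ) ≤ A.card := by exact_mod_cast h3
  have hA0 : (0 : ℝ) < A.card := by linarith
  -- the popular primes
  set P : Finset ℕ := (prs A).filter (fun p =>
    (A.card : ℝ) ≤ C * ((A.filter (fun a => ((p : ℤ) ∣ a))).card : ℝ)) with hPdef
  have hPp : ∀ p ∈ P, p.Prime := by
    intro p hp
    rw [hPdef, mem_filter] at hp
    unfold prs at hp
    obtain ⟨a, _, hpa⟩ := mem_biUnion.1 hp.1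
    exact Nat.prime_of_mem_primeFactors hpa
  have hcard : C * P.card ≤ Real.log A.card := by
    have e1 : (P.card : ℝ) * A.card ≤
        C * ∑ p ∈ P, ((A.filter (fun a => ((p : ℤ) ∣ a))).card : ℝ) := by
      rw [mul_sum, ← nsmul_eq_mul, ← sum_const]
      apply sum_le_sum
      intro p hp
      rw [hPdef, mem_filter] at hp
      exact hp.2
    have e2 : ∑ p ∈ P, ((A.filter (fun a => ((p : ℤ) ∣ a))).card : ℝ) ≤
        ∑ a ∈ A, (a.natAbs.primeFactors.card : ℝ) := by
      exact_mod_cast sum_count_le A P h0 hPp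
    have e3 : C * ((P.card : ℝ) * A.card) ≤ A.card * Real.log A.card := by
      calc C * ((P.card : ℝ) * A.card) ≤
          C * (C * ∑ p ∈ P, ((A.filter (fun a => ((p : ℤ) ∣ a))).card : ℝ)) :=
            mul_le_mul_of_nonneg_left e1 hC0.le
        _ = C ^ 2 * ∑ p ∈ P, ((A.filter (fun a => ((p : ℤ) ∣ a))).card : ℝ) := by ring
        _ ≤ C ^ 2 * ∑ a ∈ A, (a.natAbs.primeFactors.card : ℝ) :=
            mul_le_mul_of_nonneg_left e2 (by positivity)
        _ ≤ A.card * Real.log A.card := hω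
    have e4 : (A.card : ℝ) * (C * P.card) ≤ A.card * Real.log A.card := by linarith
    exact le_of_mul_le_mul_left e4 hA0
  have hun : Unpop C P A := by
    intro p hp hpP
    by_contra hcon
    rw [not_lt] at hcon
    apply hpP
    rw [hPdef, mem_filter]
    refine ⟨?_, hcon⟩
    have hne : (A.filter (fun a => ((p : ℤ) ∣ a))).Nonempty := by
      rw [← card_pos]
      by_contra hc
      have hc0 : (A.filter (fun a => ((p : ℤ) ∣ a))).card = 0 := by omega
      rw [hc0, Nat.cast_zero, mul_zero] at hcon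
      linarith
    obtain ⟨a, ha⟩ := hne
    rw [mem_filter] at ha
    have ha0 : a.natAbs ≠ 0 := by
      rw [Int.natAbs_ne_zero]
      rintro rfl
      exact h0 ha.1
    unfold prs
    exact mem_biUnion.2 ⟨a, ha.1, Nat.mem_primeFactors.2 ⟨hp, Int.natCast_dvd.1 ha.2, ha0⟩⟩
  refine le_trans (H A P h0 h3 hPp hcard hun) ?_
  exact mul_le_mul_of_nonneg_right hCC (Nat.cast_nonneg _)

end Pool.Agent.Helper57.PP
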